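import Pool.Agent.H94R2.BQ.Defs

set_option autoImplicit false

open Polynomial

noncomputable section

namespace BQ

theorem IdemFree.of_equiv {R S : Type} [CommRing R] [CommRing S] (e : R ≃+* S)
    (h : IdemFree R) : IdemFree S := sorry

theorem IdemFree.free {R : Type} [CommRing R] (h : IdemFree R) (P : Type) [AddCommGroup P]
    [Module R P] [Module.Finite R P] [Module.Projective R P] : Module.Free R P := sorry

theorem idemFree_of_free {R : Type} [CommRing R]
    (h : ∀ (P : Type) [AddCommGroup P] [Module R P] [Module.Finite R P] [Module.Projective R P],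
      Module.Free R P) : IdemFree R := sorry

theorem idemFree_pid (V : Type) [CommRing V] [IsDomain V] [IsPrincipalIdealRing V] :
    IdemFree V := sorry

theorem idemFree_local (A : Type) [CommRing A] [IsLocalRing A] : IdemFree A := sorry

/-- clearing denominators in a splitting -/
theorem clear_split {R Ω : Type} [CommRing R] [CommRing Ω] (ι : R →+* Ω)
    (hι : Function.Injective ι) (M : Submonoid R)
    (hfrac : ∀ z : Ω, ∃ m ∈ M, ∃ r : R, ι m * z = ι r) {n s : ℕ}
    (E : Matrix (Fin n) (Fin n) R) (U : Matrix (Fin n) (Fin s) Ω) (V : Matrix (Fin s) (Fin n) Ω)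
    (hUV : U * V = E.map ι) (hVU : V * U = 1) :
    ∃ g ∈ M, ∃ (U' : Matrix (Fin n) (Fin s) R) (V' : Matrix (Fin s) (Fin n) R),
      U' * V' = g • E ∧ V' * U' = g • (1 : Matrix (Fin s) (Fin s) R) := sorry

end BQ
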