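import Pool.Agent.H94R2.BQ.Defs

set_option autoImplicit false

open Polynomial

noncomputable section

namespace BQ

theorem patch {A : Type} [CommRing A] {n : ℕ} (E : Matrix (Fin n) (Fin n) A[X]) (hE : E * E = E)
    (h : ∀ (m : Ideal A) [m.IsMaximal], ∃ (s : ℕ)
      (U : Matrix (Fin n) (Fin s) (Localization.AtPrime m)[X])
      (V : Matrix (Fin s) (Fin n) (Localization.AtPrime m)[X]),
      U * V = E.map (Polynomial.mapRingHom (algebraMap A (Localization.AtPrime m))) ∧
      V * U = 1) :
    ∃ (U V : Matrix (Fin n) (Fin n) A[X]), U * V = E ∧ V * U = E.map (fun p => C (p.eval 0)) :=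
  sorry

end BQ
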