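import Pool.Agent.H94R2.BQ.Defs

set_option autoImplicit false

open Polynomial

noncomputable section

namespace BQ

theorem qh {A : Type} [CommRing A] {n s : ℕ}
    (E : Matrix (Fin n) (Fin n) A[X]) (hE : E * E = E) (g : A[X]) (hg : g.Monic)
    (U : Matrix (Fin n) (Fin s) A[X]) (V : Matrix (Fin s) (Fin n) A[X])
    (hUV : U * V = g • E) (hVU : V * U = g • (1 : Matrix (Fin s) (Fin s) A[X])) :
    ∃ (U' V' : Matrix (Fin n) (Fin n) A[X]),
      U' * V' = E ∧ V' * U' = E.map (fun p => C (p.eval 0)) := sorry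

/-- if moreover `E(0)` splits, `E` splits -/
theorem qh_split {A : Type} [CommRing A] {n s : ℕ}
    (E : Matrix (Fin n) (Fin n) A[X]) (hE : E * E = E) (g : A[X]) (hg : g.Monic)
    (U : Matrix (Fin n) (Fin s) A[X]) (V : Matrix (Fin s) (Fin n) A[X])
    (hUV : U * V = g • E) (hVU : V * U = g • (1 : Matrix (Fin s) (Fin s) A[X]))
    (t : ℕ) (U₀ : Matrix (Fin n) (Fin t) A) (V₀ : Matrix (Fin t) (Fin n) A)
    (h₁ : U₀ * V₀ = E.map (fun p => p.eval 0)) (h₂ : V₀ * U₀ = 1) :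
    ∃ (U' : Matrix (Fin n) (Fin t) A[X]) (V' : Matrix (Fin t) (Fin n) A[X]),
      U' * V' = E ∧ V' * U' = 1 := sorry

end BQ
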