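import Pool.Agent.H94R2.BQ.Defs

set_option autoImplicit false

open Polynomial

noncomputable section

namespace BQ

instance VV.pid (V : Type) [CommRing V] [IsDomain V] [IsPrincipalIdealRing V] :
    IsPrincipalIdealRing (VV V) := sorry

instance VV.dom (V : Type) [CommRing V] [IsDomain V] : IsDomain (VV V) := sorry

/-- the map `V → VV V` -/
def VV.j (V : Type) [CommRing V] [IsDomain V] : V →+* VV V :=
  (algebraMap V[X] (VV V)).comp Polynomial.C

theorem VV.prime (V : Type) [CommRing V] [IsDomain V] (π : V) (hπ : Prime π) :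
    Prime (VV.j V π) := sorry

theorem S2.factor (V : Type) [CommRing V] [IsDomain V] (f : V[X]) (hf : f ∈ S2 V) :
    ∃ (a : ℕ) (f₀ : V[X]), f = X ^ a * f₀ ∧ f₀ ∈ S2 V ∧ f₀.Monic ∧ f₀.eval 0 = 1 := sorry

end BQ
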