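import Pool.Agent.H94R2.BQ.Defs

set_option autoImplicit false

open Polynomial

noncomputable section

namespace BQ

theorem var_poly {V C Ω : Type} [CommRing V] [IsDomain V] [CommRing C] [CommRing Ω]
    (j : V →+* C) (ι : C[X] →+* Ω) (h : LocRel j ι) (hC : IdemFree C) (hΩ : IdemFree Ω) :
    IdemFree C[X] := sorry

/-- gluing: `R → Ω` injective, `t, f ∈ R` comaximal and invertible in `Ω`.  `E` idempotent over
`R_t`, split over `R_{tf}`.  Then there is an idempotent `E'` over `R`, equivalent to `E`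
over `R_t` and split over `R_f`. -/
theorem glue {R Ω : Type} [CommRing R] [CommRing Ω] (ι : R →+* Ω) (hι : Function.Injective ι)
    (t f : R) (a b : R) (hab : a * t + b * f = 1) {n s : ℕ}
    (E : Matrix (Fin n) (Fin n) Ω)
    (hEt : ∃ (N : ℕ) (E₀ : Matrix (Fin n) (Fin n) R), (ι t) ^ N • E = E₀.map ι)
    (U : Matrix (Fin n) (Fin s) Ω) (V : Matrix (Fin s) (Fin n) Ω)
    (hU : ∃ (N : ℕ) (U₀ : Matrix (Fin n) (Fin s) R), (ι (t * f)) ^ N • U = U₀.map ι)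
    (hV : ∃ (N : ℕ) (V₀ : Matrix (Fin s) (Fin n) R), (ι (t * f)) ^ N • V = V₀.map ι)
    (hUV : U * V = E) (hVU : V * U = 1) :
    ∃ (E' : Matrix (Fin (n + s)) (Fin (n + s)) R)
      (I : Matrix (Fin (n + s)) (Fin n) Ω) (J : Matrix (Fin n) (Fin (n + s)) Ω),
      E' * E' = E' ∧ I * J = E'.map ι ∧ J * I = E ∧
      (∃ (N : ℕ) (I₀ : Matrix (Fin (n + s)) (Fin n) R), (ι t) ^ N • I = I₀.map ι) ∧
      (∃ (N : ℕ) (J₀ : Matrix (Fin n) (Fin (n + s)) R), (ι t) ^ N • J = J₀.map ι) ∧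
      (∃ (N : ℕ) (I₁ : Matrix (Fin (n + s)) (Fin s) R), (ι f) ^ N • (I * U) = I₁.map ι) ∧
      (∃ (N : ℕ) (J₁ : Matrix (Fin s) (Fin (n + s)) R), (ι f) ^ N • (V * J) = J₁.map ι) := sorry

theorem var_laurent {V C Ω : Type} [CommRing V] [IsDomain V] [CommRing C] [CommRing Ω]
    (j : V →+* C) (ι : C[X] →+* Ω) (h : LocRel j ι) (hC : IdemFree C) (hΩ : IdemFree Ω) :
    IdemFree (LaurentPolynomial C) := sorry

end BQ
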