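import Pool.Agent.H94R2.BQ.Defs
import Pool.Agent.H94R2.BQ.Stub.E

set_option autoImplicit false

open Polynomial

noncomputable section

namespace BQ

theorem locRel_base (V : Type) [CommRing V] [IsDomain V] :
    LocRel (RingHom.id V) (algebraMap V[X] (VV V)) := sorry

/-- adding polynomial variables to a `LocRel` -/
theorem locRel_mv {V C Ω : Type} [CommRing V] [IsDomain V] [CommRing C] [CommRing Ω]
    (j : V →+* C) (ι : C[X] →+* Ω) (h : LocRel j ι) (m : ℕ) :
    ∃ ι' : (MvPolynomial (Fin m) C)[X] →+* MvPolynomial (Fin m) Ω,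
      LocRel (Ω := MvPolynomial (Fin m) Ω) ((MvPolynomial.C : C →+* MvPolynomial (Fin m) C).comp j)
        ι' ∧
      (∀ f : C[X], ι' (f.map MvPolynomial.C) = MvPolynomial.C (ι f)) ∧
      (∀ i, ι' (Polynomial.C (MvPolynomial.X i)) = MvPolynomial.X i) := sorry

/-- if `C` and all its base changes are `IdemFree` then so are polynomial rings; the base
changes are indexed by `S`, closed under `VV` -/
theorem mv_of_family (F : (V : Type) → [CommRing V] → [IsDomain V] → V → Type)
    [inst : ∀ (V : Type) [CommRing V] [IsDomain V] (π : V), CommRing (F V π)]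
    (hF : ∀ (V : Type) [CommRing V] [IsDomain V] [IsPrincipalIdealRing V] (π : V), Prime π →
      ∃ (j : V →+* F V π) (ι : (F V π)[X] →+* F (VV V) (VV.j V π)), LocRel j ι)
    (h0 : ∀ (V : Type) [CommRing V] [IsDomain V] [IsPrincipalIdealRing V] (π : V), Prime π →
      IdemFree (F V π)) (m : ℕ) :
    ∀ (V : Type) [CommRing V] [IsDomain V] [IsPrincipalIdealRing V] (π : V), Prime π →
      IdemFree (MvPolynomial (Fin m) (F V π)) := sorry

theorem quillen_suslin (n : ℕ) : ∀ (V : Type) [CommRing V] [IsDomain V] [IsPrincipalIdealRing V],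
    IdemFree (MvPolynomial (Fin n) V) := sorry

end BQ
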