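import Pool.Agent.H94R2.BQ.Defs

set_option autoImplicit false

open Polynomial

noncomputable section

namespace BQ

namespace Node

variable {C : Type} [CommRing C]

theorem normal_form (u : C) (d : Node C u) : ∃ p q : C[X],
    d = p.eval₂ (j u) (x u) + y u * q.eval₂ (j u) (y u) := sorry

theorem ιy_injective [IsDomain C] (u : C) (hu : u ≠ 0) : Function.Injective (ιy u) := sorry

theorem mem_range_ιy [IsDomain C] (u : C) (f : LaurentPolynomial C) :
    (∃ d, ιy u d = f) ↔ ∀ k : ℕ, u ^ k ∣ f.coeff (-(k : ℤ)) := sorry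

theorem ιx_injective [IsDomain C] (u : C) (hu : u ≠ 0) : Function.Injective (ιx u) := sorry

theorem mem_range_ιx [IsDomain C] (u : C) (f : LaurentPolynomial C) :
    (∃ d, ιx u d = f) ↔ ∀ k : ℕ, u ^ k ∣ f.coeff (-(k : ℤ)) := sorry

/-- relation between the two embeddings -/
theorem ιy_coeff_neg (u : C) (d : Node C u) (k : ℕ) :
    (ιy u d).coeff (-(k : ℤ)) = u ^ k * (ιx u d).coeff (k : ℤ) := sorry

theorem ιx_coeff_neg (u : C) (d : Node C u) (k : ℕ) :
    (ιx u d).coeff (-(k : ℤ)) = u ^ k * (ιy u d).coeff (k : ℤ) := sorry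

theorem isDomain [IsDomain C] (u : C) (hu : u ≠ 0) : IsDomain (Node C u) := sorry

/-- the elements of `D` without positive powers of `y` -/
theorem mem_polynomial_x (u : C) (d : Node C u)
    (h : ∀ k : ℕ, 0 < k → (ιy u d).coeff (k : ℤ) = 0) :
    ∃ p : C[X], d = p.eval₂ (j u) (x u) := sorry

/-- the reduction `x ↦ 0`, `y ↦ X` -/
def ρx {K : Type} [CommRing K] (u : C) (r : C →+* K) (hr : r u = 0) : Node C u →+* K[X] :=
  lift u (Polynomial.C.comp r) 0 X (by simp [hr])

/-- the reduction `x ↦ X`, `y ↦ 0` -/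
def ρy {K : Type} [CommRing K] (u : C) (r : C →+* K) (hr : r u = 0) : Node C u →+* K[X] :=
  lift u (Polynomial.C.comp r) X 0 (by simp [hr])

theorem ρx_ιy {K : Type} [CommRing K] (u : C) (r : C →+* K) (hr : r u = 0) (d : Node C u) :
    toLaurent (ρx u r hr d) = lmap r (ιy u d) := sorry

theorem ρy_surjective {K : Type} [CommRing K] (u : C) (r : C →+* K) (hr : r u = 0)
    (hs : Function.Surjective r) : Function.Surjective (ρy u r hr) := sorry

theorem ρy_eq_zero {K : Type} [CommRing K] (u : C) (r : C →+* K)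
    (hk : ∀ c, r c = 0 ↔ u ∣ c) (hr : r u = 0) (d : Node C u) :
    ρy u r hr d = 0 ↔ y u ∣ d := sorry

theorem y_prime {K : Type} [CommRing K] [IsDomain K] [IsDomain C] (u : C) (hu : u ≠ 0)
    (r : C →+* K) (hk : ∀ c, r c = 0 ↔ u ∣ c) (hs : Function.Surjective r) :
    Prime (y u) := sorry

end Node

end BQ
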