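import Pool.Agent.H94R2.BQ.Defs
import Pool.Agent.H94R2.BQ.Stub.E
import Pool.Agent.H94R2.BQ.Stub.H

set_option autoImplicit false

open Polynomial

noncomputable section

namespace BQ

theorem locRel_node {V C Ω : Type} [CommRing V] [IsDomain V] [CommRing C] [IsDomain C]
    [CommRing Ω] [IsDomain Ω] (j : V →+* C) (u : C) (hu : u ≠ 0) (ι : C[X] →+* Ω)
    (h : LocRel j ι) (u' : Ω) (hu' : ι (Polynomial.C u) = u') :
    ∃ ι' : (Node C u)[X] →+* Node Ω u',
      LocRel ((Node.j u).comp j) ι' ∧
      (∀ f : C[X], ι' (f.map (Node.j u)) = Node.j _ (ι f)) ∧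
      ι' (Polynomial.C (Node.y u)) = Node.y _ := sorry

/-- the rings of the tower are domains and the distinguished elements are prime -/
theorem tower_domain (V : Type) [CommRing V] [IsDomain V] (π : V) (hπ : Prime π) (n : ℕ) :
    IsDomain (tower V π n).C ∧ (tower V π n).u ≠ 0 := sorry

/-- the reduction modulo the distinguished element is a polynomial ring -/
theorem tower_red (V : Type) [CommRing V] [IsDomain V] (π : V) (K : Type)
    [Field K] (q : V →+* K) (hq : Function.Surjective q) (hk : ∀ c, q c = 0 ↔ π ∣ c) (n : ℕ) :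
    ∃ (r : (tower V π n).C →+* MvPolynomial (Fin n) K)
      (g : MvPolynomial (Fin n) V →+* (tower V π n).C),
      Function.Surjective r ∧ (∀ c, r c = 0 ↔ (tower V π n).u ∣ c) ∧
      r.comp g = MvPolynomial.map q := sorry

theorem locRel_tower (V : Type) [CommRing V] [IsDomain V] (π : V) (hπ : Prime π) (n : ℕ) :
    ∃ ι : (tower V π n).C[X] →+* (tower (VV V) (VV.j V π) n).C,
      LocRel (tower V π n).j ι ∧
      (∀ f : V[X], ι (f.map (tower V π n).j) =
        (tower (VV V) (VV.j V π) n).j (algebraMap V[X] (VV V) f)) ∧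
      ι (Polynomial.C (tower V π n).u) = (tower (VV V) (VV.j V π) n).u := sorry

end BQ
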