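import Pool.Agent.H94R2.BQ.Defs

set_option autoImplicit false

open Polynomial

noncomputable section

namespace BQ

theorem blow {C : Type} [CommRing C] [IsDomain C] (u : C) (hu : u ≠ 0) (ha : IdemFree C[X])
    {n s : ℕ} (E : Matrix (Fin n) (Fin n) (Node C u)) (hE : E * E = E)
    (U : Matrix (Fin n) (Fin s) (LaurentPolynomial C))
    (V : Matrix (Fin s) (Fin n) (LaurentPolynomial C))
    (hUV : U * V = E.map (Node.ιy u)) (hVU : V * U = 1)
    (X₀ : Matrix (Fin n) (Fin s) (Node C u)) (Y₀ : Matrix (Fin s) (Fin s) (LaurentPolynomial C))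
    (hX : V * X₀.map (Node.ιy u) = 1 + LaurentPolynomial.C u • Y₀)
    (hdet : ∀ X : Matrix (Fin n) (Fin s) (Node C u),
      ∃ d, Node.ιy u d = (V * X.map (Node.ιy u)).det) :
    ∃ (U' : Matrix (Fin n) (Fin s) (Node C u)) (V' : Matrix (Fin s) (Fin n) (Node C u)),
      U' * V' = E ∧ V' * U' = 1 := sorry

end BQ
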