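import Pool.Agent.H94R2.BQ.Defs

set_option autoImplicit false

open Polynomial

noncomputable section

namespace BQ

theorem det_mem {C K : Type} [CommRing C] [IsDomain C] [CommRing K] [IsDomain K] (u : C)
    (hu : Prime u) (r : C →+* K) (hs : Function.Surjective r) (hk : ∀ c, r c = 0 ↔ u ∣ c)
    {n s s₁ : ℕ} (E : Matrix (Fin n) (Fin n) (Node C u)) (hE : E * E = E)
    (U : Matrix (Fin n) (Fin s) (LaurentPolynomial C))
    (V : Matrix (Fin s) (Fin n) (LaurentPolynomial C))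
    (hUV : U * V = E.map (Node.ιy u)) (hVU : V * U = 1)
    (U₁ : Matrix (Fin n) (Fin s₁) (LaurentPolynomial C))
    (V₁ : Matrix (Fin s₁) (Fin n) (LaurentPolynomial C))
    (hUV₁ : U₁ * V₁ = E.map (Node.ιx u)) (hVU₁ : V₁ * U₁ = 1)
    (Ubar : Matrix (Fin n) (Fin s) K[X]) (Vbar : Matrix (Fin s) (Fin n) K[X])
    (hUbar : U.map (lmap r) = Ubar.map toLaurent) (hVbar : V.map (lmap r) = Vbar.map toLaurent)
    (X : Matrix (Fin n) (Fin s) (Node C u)) :
    ∃ d, Node.ιy u d = (V * X.map (Node.ιy u)).det := sorry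

end BQ
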