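import Pool.Agent.H94R2.BQ.Defs

set_option autoImplicit false

open Polynomial

noncomputable section

namespace BQ

theorem step {C K : Type} [CommRing C] [IsDomain C] [CommRing K] [IsDomain K] (u : C)
    (hu : Prime u) (r : C →+* K) (hs : Function.Surjective r) (hk : ∀ c, r c = 0 ↔ u ∣ c)
    (ha : IdemFree C[X]) (hb : IdemFree (LaurentPolynomial C)) (hc : IdemFree K[X])
    (hd : Dec r) : IdemFree (Node C u) := sorry

end BQ
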