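import Pool.Agent.H94R2.BQ.Defs

set_option autoImplicit false

open Polynomial

noncomputable section

namespace BQ

/-- `Γ * Γ' = h * h`, and `Γ ≡ h γ` modulo the kernel of `q`: the matrix `γ` lifts to `A[X][1/h]` -/
theorem lift_var {A B : Type} [CommRing A] [CommRing B] (q : A →+* B)
    (hq : Function.Surjective q) {s : ℕ} (γ : Matrix (Fin s) (Fin s) B[X]) (hγ : γ.det = 1)
    (h : A[X]) (hh : h.Monic) (Γ Γ' : Matrix (Fin s) (Fin s) A[X])
    (hΓ : Γ * Γ' = (h * h) • (1 : Matrix (Fin s) (Fin s) A[X]))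
    (hΓγ : Γ.map (mapRingHom q) = (h.map q) • γ)
    (h0 : ∀ δ : Matrix (Fin s) (Fin s) B, δ.det = 1 →
      ∃ Δ : Matrix (Fin s) (Fin s) A, Δ.det = 1 ∧ Δ.map q = δ) :
    ∃ Δ : Matrix (Fin s) (Fin s) A[X], Δ.det = 1 ∧ Δ.map (mapRingHom q) = γ := sorry

theorem lift_mv (n : ℕ) : ∀ (V : Type) [CommRing V] [IsDomain V] [IsPrincipalIdealRing V]
    (K : Type) [Field K] (q : V →+* K) (_ : Function.Surjective q) (s : ℕ)
    (γ : Matrix (Fin s) (Fin s) (MvPolynomial (Fin n) K)) (_ : γ.det = 1),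
    ∃ Δ : Matrix (Fin s) (Fin s) (MvPolynomial (Fin n) V), Δ.det = 1 ∧
      Δ.map (MvPolynomial.map q) = γ := sorry

end BQ
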