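import Pool.Agent.H94R2.BQ.Defs

set_option autoImplicit false

open Polynomial

noncomputable section

namespace BQ

theorem dec_mv (n : ℕ) (V : Type) [CommRing V] [IsDomain V] [IsPrincipalIdealRing V]
    (K : Type) [Field K] (q : V →+* K) (hq : Function.Surjective q) :
    Dec (MvPolynomial.map q : MvPolynomial (Fin n) V →+* MvPolynomial (Fin n) K) := sorry

theorem Dec.of_comp {A C K : Type} [CommRing A] [CommRing C] [CommRing K] (g : A →+* C)
    (r : C →+* K) (h : Dec (r.comp g)) : Dec r := sorry

end BQ
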