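import Pool.Agent.H94R2.BQ.Defs

set_option autoImplicit false

open Polynomial

noncomputable section

namespace BQ

theorem main (n : ℕ) : ∀ (V : Type) [CommRing V] [IsDomain V] [IsPrincipalIdealRing V]
    (π : V) (_ : Prime π), IdemFree (tower V π n).C := sorry

end BQ
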