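import Pool.Agent.H94R2.BQ.Defs

set_option autoImplicit false

open Polynomial

noncomputable section

namespace BQ

/-- the ring `V[x_0,...,x_n]/(x_0 ⋯ x_n - π)` -/
abbrev Semi (V : Type) [CommRing V] (π : V) (n : ℕ) : Type :=
  MvPolynomial (Fin (n + 1)) V ⧸
    Ideal.span {(∏ i, MvPolynomial.X i - MvPolynomial.C π : MvPolynomial (Fin (n + 1)) V)}

theorem tower_equiv (V : Type) [CommRing V] (π : V) (n : ℕ) :
    Nonempty ((tower V π n).C ≃+* Semi V π n) := sorry

end BQ
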