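import Pool.Agent.H94R2.BQ.Defs

set_option autoImplicit false

open Polynomial

noncomputable section

namespace BQ

theorem roitman {R : Type} [CommRing R] [IsDomain R] (q : Ideal R) [q.IsPrime] (m : ℕ)
    (h : IdemFree (MvPolynomial (Fin m) R)) :
    IdemFree (MvPolynomial (Fin m) (Localization.AtPrime q)) := sorry

end BQ
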