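import Pool.Agent.H94R2.BQ.Defs

set_option autoImplicit false

open Polynomial

noncomputable section

namespace BQ

theorem patch_mv {A : Type} [CommRing A] (m : ℕ)
    (h : ∀ (q : Ideal A) [q.IsMaximal], IdemFree (MvPolynomial (Fin m) (Localization.AtPrime q)))
    {n : ℕ} (E : Matrix (Fin n) (Fin n) (MvPolynomial (Fin m) A)) (hE : E * E = E) :
    ∃ (U V : Matrix (Fin n) (Fin n) (MvPolynomial (Fin m) A)), U * V = E ∧
      V * U = E.map (fun p => MvPolynomial.C (MvPolynomial.constantCoeff p)) := sorry

end BQ
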